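import Mathlib

set_option autoImplicit false

universe u v

namespace Pool.Agent.Results.MP_836feb_al.NonFreeRetract

/-- The free Burnside group `B(α, n)` of exponent `n` on the alphabet `α`: the free group on `α`
modulo the normal subgroup generated by all `n`-th powers. -/
abbrev FreeBurnside (α : Type u) (n : ℕ) : Type u :=
  PresentedGroup (Set.range (fun w : FreeGroup α => w ^ n))

/-- A subgroup `H` of `G` is a retract if some homomorphism `G → H` restricts to the identity
of `H`. -/
def IsRetract {G : Type u} [Group G] (H : Subgroup G) : Prop :=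
  ∃ ρ : G →* H, ∀ h : H, ρ h = h

namespace FreeBurnside

variable {α : Type u} {n : ℕ}

/-- every element of `B(α, n)` has exponent dividing `n`. -/
lemma pow_eq_one (x : FreeBurnside α n) : x ^ n = 1 := by
  obtain ⟨w, rfl⟩ := PresentedGroup.mk_surjective _ x
  rw [← map_pow]
  exact PresentedGroup.mk_eq_one_iff.2 (Subgroup.subset_normalClosure ⟨w, rfl⟩)

/-- The universal property of `B(α, n)`. -/
def lift {K : Type v} [Group K] (hK : ∀ x : K, x ^ n = 1) (f : α → K) : FreeBurnside α n →* K :=
  PresentedGroup.toGroup (rels := Set.range (fun w : FreeGroup α => w ^ n)) (f := f) (by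
    rintro _ ⟨w, rfl⟩
    rw [map_pow, hK])

@[simp] lemma lift_of {K : Type v} [Group K] (hK : ∀ x : K, x ^ n = 1) (f : α → K) (i : α) :
    lift hK f (PresentedGroup.of i) = f i :=
  PresentedGroup.toGroup.of _

end FreeBurnside

open FreeBurnside

lemma mult_pow (n a : ℕ) (h : a ∣ n) (x : Multiplicative (ZMod a)) : x ^ n = 1 := by
  obtain ⟨c, rfl⟩ := h
  apply Multiplicative.toAdd.injective
  rw [toAdd_pow, toAdd_one]
  simp

lemma mult_prod_pow (n a : ℕ) (h : a ∣ n) (x : Multiplicative (ZMod a × ZMod a)) : x ^ n = 1 := by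
  obtain ⟨c, rfl⟩ := h
  apply Multiplicative.toAdd.injective
  rw [toAdd_pow, toAdd_one]
  ext <;> simp

/-- For every odd `n > 1` that is not a prime power and every non-empty alphabet `α`, the free
Burnside group `B(α, n)` has a retract `H`, non-cyclic as soon as `α` has two letters, that is
not isomorphic to any free Burnside group of exponent `n`. -/
theorem result (n : ℕ) (_hodd : Odd n) (hn : 1 < n) (hpp : ¬ IsPrimePow n)
    (α : Type u) [Nonempty α] :
    ∃ H : Subgroup (FreeBurnside α n), IsRetract H ∧ (Nontrivial α → ¬ IsCyclic H) ∧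
      ∀ β : Type v, IsEmpty (H ≃* FreeBurnside β n) := by
  classical
  -- write `n = a * b` with `a, b > 1` coprime
  obtain ⟨a, b, hab, hco, ha, hb⟩ : ∃ a b : ℕ, n = a * b ∧ Nat.Coprime a b ∧ 1 < a ∧ 1 < b := by
    obtain ⟨p, hp, hpn⟩ := Nat.exists_prime_and_dvd (by omega : n ≠ 1)
    have hn0 : n ≠ 0 := by omega
    refine ⟨p ^ n.factorization p, n / p ^ n.factorization p, ?_, ?_, ?_, ?_⟩
    · exact (Nat.ordProj_mul_ordCompl_eq_self n p).symm
    · exact (Nat.coprime_ordCompl hp hn0).pow_left _
    · have : 0 < n.factorization p := hp.factorization_pos_of_dvd hn0 hpn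
      exact Nat.one_lt_pow this.ne' hp.one_lt
    · by_contra hcon
      have hpos : 0 < n / p ^ n.factorization p := Nat.ordCompl_pos p hn0
      have h1 : n / p ^ n.factorization p = 1 := by omega
      apply hpp
      have h2 := Nat.ordProj_mul_ordCompl_eq_self n p
      rw [h1, mul_one] at h2
      rw [← h2]
      exact hp.isPrimePow.pow (hp.factorization_pos_of_dvd hn0 hpn).ne'
  -- an idempotent exponent `e`
  obtain ⟨e, he1, he0⟩ := Nat.chineseRemainder hco 1 0
  have hee : e * e ≡ e [MOD n] := by
    rw [hab, ← Nat.modEq_and_modEq_iff_modEq_mul hco]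
    constructor
    · calc e * e ≡ e * 1 [MOD a] := he1.mul_left e
        _ = e := mul_one e
    · calc e * e ≡ e * 0 [MOD b] := he0.mul_left e
        _ = 0 := mul_zero e
        _ ≡ e [MOD b] := he0.symm
  have hbe : b ∣ e := (Nat.modEq_zero_iff_dvd).1 he0
  have hane : n ∣ e * a := by
    obtain ⟨c, hc⟩ := hbe
    exact ⟨c, by rw [hab, hc]; ring⟩
  have han : a ∣ n := ⟨b, hab⟩
  -- the idempotent endomorphism
  let φ : FreeBurnside α n →* FreeBurnside α n :=
    lift (n := n) pow_eq_one (fun i => (PresentedGroup.of i) ^ e)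
  have hφ : ∀ i, φ (PresentedGroup.of i) = (PresentedGroup.of i) ^ e := fun i => lift_of _ _ i
  have hidem : φ.comp φ = φ := by
    refine PresentedGroup.ext fun i => ?_
    show φ (φ (PresentedGroup.of i)) = φ (PresentedGroup.of i)
    rw [hφ, map_pow, hφ, ← pow_mul, pow_eq_pow_iff_modEq]
    exact hee.of_dvd (orderOf_dvd_of_pow_eq_one (pow_eq_one _))
  have hidem' : ∀ x, φ (φ x) = φ x := fun x => DFunLike.congr_fun hidem x
  refine ⟨φ.range, ⟨φ.rangeRestrict, ?_⟩, ?_, ?_⟩
  · rintro ⟨_, y, rfl⟩
    apply Subtype.ext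
    exact hidem' y
  · -- not cyclic
    rintro ⟨i, j, hij⟩ hcyc
    obtain ⟨g, hg⟩ := hcyc
    let θ : FreeBurnside α n →* Multiplicative (ZMod a × ZMod a) :=
      lift (n := n) (mult_prod_pow n a han)
        (fun l => if l = i then Multiplicative.ofAdd (1, 0)
          else if l = j then Multiplicative.ofAdd (0, 1) else 1)
    have hθi : θ (PresentedGroup.of i) = Multiplicative.ofAdd (1, 0) := by
      rw [show θ (PresentedGroup.of i) = _ from lift_of _ _ i]; simp
    have hθj : θ (PresentedGroup.of j) = Multiplicative.ofAdd (0, 1) := by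
      rw [show θ (PresentedGroup.of j) = _ from lift_of _ _ j]; simp [hij.symm]
    have hea : ((e : ℕ) : ZMod a) = 1 := by
      have := (ZMod.natCast_eq_natCast_iff e 1 a).2 he1
      simpa using this
    have key : ∀ l, θ (φ (PresentedGroup.of l)) = θ (PresentedGroup.of l) ^ e := by
      intro l; rw [hφ, map_pow]
    obtain ⟨s, hs⟩ := Subgroup.mem_zpowers_iff.1 (hg ⟨φ (PresentedGroup.of i), _, rfl⟩)
    obtain ⟨t, ht⟩ := Subgroup.mem_zpowers_iff.1 (hg ⟨φ (PresentedGroup.of j), _, rfl⟩)
    have hs' : θ (g : FreeBurnside α n) ^ s = θ (PresentedGroup.of i) ^ e := by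
      rw [← key, ← map_zpow]
      exact congrArg θ (congrArg Subtype.val hs)
    have ht' : θ (g : FreeBurnside α n) ^ t = θ (PresentedGroup.of j) ^ e := by
      rw [← key, ← map_zpow]
      exact congrArg θ (congrArg Subtype.val ht)
    rw [hθi] at hs'
    rw [hθj] at ht'
    set G := Multiplicative.toAdd (θ (g : FreeBurnside α n)) with hG
    have h1 : s • G = (1, 0) := by
      have := congrArg Multiplicative.toAdd hs'
      rw [toAdd_zpow, toAdd_pow, toAdd_ofAdd] at this
      rw [hG, this]; ext <;> simp [hea]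
    have h2 : t • G = (0, 1) := by
      have := congrArg Multiplicative.toAdd ht'
      rw [toAdd_zpow, toAdd_pow, toAdd_ofAdd] at this
      rw [hG, this]; ext <;> simp [hea]
    have h11 : (s : ZMod a) * G.1 = 1 := by
      have := congrArg Prod.fst h1; simpa using this
    have h12 : (s : ZMod a) * G.2 = 0 := by
      have := congrArg Prod.snd h1; simpa using this
    have h22 : (t : ZMod a) * G.2 = 1 := by
      have := congrArg Prod.snd h2; simpa using this
    have h3 : (1 : ZMod a) = 0 := by
      calc (1 : ZMod a) = ((s : ZMod a) * G.1) * ((t : ZMod a) * G.2) := by rw [h11, h22, one_mul]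
        _ = ((s : ZMod a) * G.2) * ((t : ZMod a) * G.1) := by ring
        _ = 0 := by rw [h12, zero_mul]
    have : Fact (1 < a) := ⟨ha⟩
    exact one_ne_zero h3
  · -- not free
    intro β
    refine ⟨fun Φ => ?_⟩
    rcases isEmpty_or_nonempty β with hβ | ⟨⟨j⟩⟩
    · -- `H` would be trivial
      obtain ⟨i⟩ := ‹Nonempty α›
      have htriv : ∀ x : FreeBurnside β n, x = 1 := by
        intro x
        obtain ⟨w, rfl⟩ := PresentedGroup.mk_surjective _ x
        rw [Subsingleton.elim w 1, map_one]
      have hH : ∀ x : φ.range, x = 1 := fun x => Φ.injective (by rw [htriv (Φ x), htriv (Φ 1)])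
      have h1 : φ (PresentedGroup.of i) = 1 :=
        congrArg Subtype.val (hH ⟨φ (PresentedGroup.of i), _, rfl⟩)
      let θ : FreeBurnside α n →* Multiplicative (ZMod a) :=
        lift (n := n) (mult_pow n a han) (fun _ => Multiplicative.ofAdd 1)
      have h2 : θ (φ (PresentedGroup.of i)) = Multiplicative.ofAdd ((e : ℕ) : ZMod a) := by
        rw [hφ, map_pow, show θ (PresentedGroup.of i) = _ from lift_of _ _ i, ← ofAdd_nsmul]
        simp
      rw [h1, map_one] at h2
      have hea : ((e : ℕ) : ZMod a) = 1 := by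
        have := (ZMod.natCast_eq_natCast_iff e 1 a).2 he1
        simpa using this
      rw [hea] at h2
      have h3 : (0 : ZMod a) = 1 := congrArg Multiplicative.toAdd h2
      have : Fact (1 < a) := ⟨ha⟩
      exact zero_ne_one h3
    · let ψ : FreeBurnside β n →* Multiplicative (ZMod n) :=
        lift (n := n) (mult_pow n n dvd_rfl) (fun _ => Multiplicative.ofAdd 1)
      let F : FreeBurnside α n →* Multiplicative (ZMod n) :=
        (ψ.comp Φ.toMonoidHom).comp φ.rangeRestrict
      have hF : (powMonoidHom a).comp F = 1 := by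
        refine PresentedGroup.ext fun i => ?_
        show (F (PresentedGroup.of i)) ^ a = 1
        rw [← map_pow]
        have h1 : φ.rangeRestrict ((PresentedGroup.of i) ^ a) = 1 := by
          apply Subtype.ext
          show φ ((PresentedGroup.of i) ^ a) = 1
          rw [map_pow, hφ, ← pow_mul]
          obtain ⟨c, hc⟩ := hane
          rw [hc, pow_mul, pow_eq_one, one_pow]
        show ψ (Φ (φ.rangeRestrict _)) = 1
        rw [h1, map_one, map_one]
      obtain ⟨w, hw⟩ := φ.rangeRestrict_surjective (Φ.symm (PresentedGroup.of j))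
      have h1 : F w = Multiplicative.ofAdd 1 := by
        show ψ (Φ (φ.rangeRestrict w)) = _
        rw [hw, MulEquiv.apply_symm_apply]
        exact lift_of _ _ j
      have h2 : (F w) ^ a = 1 := DFunLike.congr_fun hF w
      rw [h1, ← ofAdd_nsmul] at h2
      have h3 : (a : ZMod n) = 0 := by
        have := congrArg Multiplicative.toAdd h2
        simpa using this
      rw [ZMod.natCast_eq_zero_iff] at h3
      have h4 := Nat.le_of_dvd (by omega) h3
      rw [hab] at h4
      nlinarith

end Pool.Agent.Results.MP_836feb_al.NonFreeRetract
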